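import Pool.Agent.P.MP_f20d00_al.Main

set_option autoImplicit false

namespace Pool.Agent.Results.MP_f20d00_al.SharpStart

open Pool.Agent.MP_f20d00_al

/-- `(M - 1)^2 + 1` is the least `s₀` such that, for every numerical semigroup whose largest minimal
generator is `M` and every common multiple `p` of its minimal generators, the tame degree satisfies
`t (s + p) = t s` for all `s ≥ s₀` in the semigroup. -/
theorem result (M : ℕ) (hM : 3 ≤ M) :
    IsLeast {s₀ : ℕ | ∀ S : AddSubmonoid ℕ, ((S : Set ℕ)ᶜ).Finite →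
      ∀ A : Set ℕ,
        A = {a : ℕ | a ∈ S ∧ a ≠ 0 ∧ ∀ b ∈ S, ∀ c ∈ S, b + c = a → b = 0 ∨ c = 0} →
      IsGreatest A M →
      ∀ Z : ℕ → Set (ℕ →₀ ℕ),
        (∀ s : ℕ, Z s = {x : ℕ →₀ ℕ | (∀ k ∈ x.support, k ∈ A) ∧
          x.sum (fun k m => m * k) = s}) →
      ∀ t : ℕ → ℕ,
        (∀ s : ℕ, t s = sInf {N : ℕ | ∀ i ∈ A, i ≤ s → s - i ∈ S →
          ∀ x ∈ Z s, ∃ y ∈ Z s, 0 < y i ∧
            max ((x - x ⊓ y).sum (fun _ m => m)) ((y - x ⊓ y).sum (fun _ m => m)) ≤ N}) →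
      ∀ p : ℕ, (∀ a ∈ A, a ∣ p) →
      ∀ s ∈ S, s₀ ≤ s → t (s + p) = t s} ((M - 1) ^ 2 + 1) := by
  constructor
  · intro S _ A hA hG Z hZ t ht p hp s _ hs
    obtain rfl : A = Atoms S := hA
    obtain rfl : Z = Fac (Atoms S) := funext hZ
    rw [ht, ht]
    exact tame_periodic S M (fun a ha => hG.2 ha) p hp s hs
  · intro s₀ H
    obtain ⟨m, rfl⟩ : ∃ m, M = m + 1 := ⟨M - 1, by omega⟩
    have hm : 2 ≤ m := by omega
    by_contra hc
    rw [Nat.add_sub_cancel, not_le] at hc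
    have h := H (Two m) (two_cofinite m (by omega)) (Atoms (Two m)) rfl
      ⟨(two_atoms m hm _).mpr (Or.inr rfl), fun a ha => by
        rcases (two_atoms m hm a).mp ha with h | h <;> omega⟩
      (Fac (Atoms (Two m))) (fun _ => rfl) (fun s => sInf (Good (Two m) (Atoms (Two m)) s))
      (fun _ => rfl) (m * (m + 1)) (fun a ha => by
        rcases (two_atoms m hm a).mp ha with rfl | rfl
        · exact dvd_mul_right _ _
        · exact dvd_mul_left _ _)
      (m * m) ⟨m, 0, by ring⟩ (by nlinarith)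
    exact two_ne_zero m hm (h.trans (two_zero m hm))

end Pool.Agent.Results.MP_f20d00_al.SharpStart
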